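import Pool.Agent.Helper40.MT.Final

/-!
# MP_de8692_ag: the motivic Tate statement for motives with maximally unipotent monodromy

`M` is a polarised pure motive of weight `w > 0` over a number field `F` (`MT.PMot`), with maximally
unipotent monodromy at some place over the prime `p₀` (`MT.PMot.Mum`), which may be equal to `l`,
and with a large image in the sense of `MT.PMot.Large`.
-/

open NumberField

namespace Pool.Agent.Results.MP_de8692_ag.MaxUnipotentMotives

/-- For every field `K` containing `ℚ_l`, on points over `K`: the `l`-adic monodromy group, its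
identity component, the motivic Galois group and the group of similitudes of the polarisation
are equal; they contain the Mumford-Tate group, and are equal to it if every Hodge class is invariant
under an open subgroup of the Galois group (which holds for absolute Hodge classes). -/
theorem result (F : Type) [Field F] [NumberField F] (S : Finset ℕ) (hS : ∀ p ∈ S, p.Prime)
    (n w : ℕ) (hw : 0 < w) (h : Fin n → ℕ) (M : MT.PMot F S n w h) (l : ℕ) [Fact l.Prime]
    (p₀ : ℕ) (hp₀ : p₀.Prime) (hM : M.Mum l p₀) (hL : M.Large l) (K : Type) [Field K]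
    [Algebra ℚ_[l] K] :
    M.Gl l K = M.Gmot K ∧ M.Gl0 l K = M.Gmot K ∧ M.Gmot K = MT.Sim M.ψ K ∧
      M.Gsigma K ⊆ M.Gl0 l K ∧
      ((∀ (a b : ℕ) (t : MT.Tensor n a b ℚ), M.IsHodge t → ∃ H : Subgroup (MU.Gal F),
        IsOpen (H : Set (MU.Gal F)) ∧
          ∀ g ∈ H, MT.act (M.ρ l g) (t.base ℚ_[l]) = t.base ℚ_[l]) →
        M.Gl0 l K = M.Gsigma K) :=
  MT.final F S hS n w hw h M l p₀ hp₀ hM hL K

end Pool.Agent.Results.MP_de8692_ag.MaxUnipotentMotives
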