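import Pool.Agent.Helper21.EM.Final

/-!
# MP_de8692_ag: motives with commutative endomorphisms

`M` is a polarised pure motive of weight `w > 0` over a number field `F`, for motivated or absolute
Hodge cycles, given by its realisations (`MR.RMot`). `EM.GoodEnd M`: the endomorphisms of the Hodge
structure are motivic and commute with each other, and every factor of `M` has an isolated Hodge
number one, or real multiplication and isolated Hodge numbers as in `MT.WideC` in an isotypic block
(`EM.GoodAt`).
-/

open NumberField

namespace Pool.Agent.Results.MP_de8692_ag.CommutativeEndomorphisms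

/-- (A) If `EM.GoodEnd M`, the derived Lie algebra of the Mumford-Tate group is that of the Lie
algebra of infinitesimal isometries commuting with the Hodge endomorphisms; if `M` has no factor with
complex multiplication, its Lie algebra consists of all infinitesimal similitudes commuting with the
Hodge endomorphisms. (B) Let `d = 2`, or `d = 1` if `EM.GoodEnd M`. If the `l`-adic representation is
semisimple and in `T^(d,d)` the Tate classes are the combinations of Hodge classes, then the derived
Lie algebras of the Mumford-Tate group and of the `l`-adic monodromy group agree; and if `M` has no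
factor with complex multiplication, the Mumford-Tate conjecture holds for `M` and `l`, and the Tate
classes are the combinations of Hodge classes in all `T^(a,b)`. -/
theorem result (F : Type) [Field F] [NumberField F] (n w : ℕ) (hw : 0 < w) (h : Fin n → ℕ)
    (M : MR.RMot F n w h) :
    (EM.GoodEnd M → HG.der (MR.mlie M) = HG.der (EM.LefE M.ψ (EM.HodgeEnd M)) ∧
      (EM.NoCM M → ∀ A, A ∈ MR.mlie M ↔
        (∃ c : ℚ, A.transpose * M.ψ + M.ψ * A = c • M.ψ) ∧ ∀ X ∈ EM.HodgeEnd M, A * X = X * A)) ∧
    ∀ (l : ℕ) [Fact l.Prime] (d : ℕ), (d = 2 ∨ (d = 1 ∧ EM.GoodEnd M)) → EM.Semi M l →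
      (∀ t : MT.Tensor n d d ℚ_[l], EM.IsTateL M l t ↔ t ∈ EM.hodgeSpan M ℚ_[l] d d) →
      EM.MTC M l :=
  EM.final F n w hw h M

end Pool.Agent.Results.MP_de8692_ag.CommutativeEndomorphisms
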