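import Pool.Agent.Helper21.WE.FinalO

/-!
# MP_de8692_ag: the Mumford-Tate conjecture from isolated Hodge numbers

`M` is a polarised pure motive of weight `w > 0` over a number field `F`, given by its realisations
(`MR.RMot`). The hypotheses on the Hodge numbers are `MT.WideH` for the Mumford-Tate group, and
`MT.WideC` for the `l`-adic monodromy groups: some Hodge type is isolated, and its Hodge number is
one; or it is isolated, and (`MT.WideC`) all the Hodge numbers have no common divisor, with at least
two inner types which are not conjugate or with Hodge numbers which are far apart; for `MT.WideH`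
common divisors are allowed; or all the Hodge numbers but one are at most one. On the `l`-adic side
they may be replaced by an isolated eigenvalue of a Galois element (`MR.RMot.IsoEigM`). For weight
two and Hodge numbers `(a, b, a)` the hypothesis `MT.WideH` is: `a = 1` and `b > 0`, or
`3 a ^ 2 + a < 2 b` and `(a, b) ≠ (2, 8)`, or `b > 0` and `b ^ 2 + b + 3 ≤ 2 a`, or `a ≥ 2` and
`b = 1, 2`.
-/

open NumberField

namespace Pool.Agent.Results.MP_de8692_ag.IsolatedHodgeNumbers

/-- (A) If the endomorphisms of the Hodge structure are the rational numbers (or the Hodge structure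
is irreducible, with middle Hodge number one), and the Hodge numbers are as in `MT.WideH`, then the
Mumford-Tate group is the connected group of similitudes of the polarisation, on points over every
field of characteristic `0`; it is contained in the motivic Galois group, and this one in the group
of similitudes.

(B) If the `l`-adic realisation is irreducible with scalar endomorphisms over every finite extension
of `F` (or is irreducible over `F`, with middle Hodge number one), and the Hodge numbers are as in
`MT.WideC` or some Galois element has an isolated eigenvalue, then for every field `K` containing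
`ℚ_l`, on points over `K`: the identity component of the `l`-adic monodromy group is the connected
group of similitudes; it is contained in the `l`-adic monodromy group, this one in the motivic
Galois group, and this one in the group of similitudes (which is the connected group for odd `n` or
odd `w`); the Mumford-Tate group is contained in the identity component of the `l`-adic monodromy
group, and they are equal if the Hodge structure satisfies the hypotheses of (A), or if the Hodge
tensors are fixed by open subgroups of the Galois group. -/
theorem result (F : Type) [Field F] [NumberField F] (n w : ℕ) (hw : 0 < w) (h : Fin n → ℕ)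
    (M : MR.RMot F n w h) :
    (M.AIrrH → MT.WideH w h → ∀ (K : Type) [Field K] [CharZero K],
      M.Gsigma K = MT.SimC w M.ψ K ∧ M.Gsigma K ⊆ M.Gmot K ∧ M.Gmot K ⊆ MT.Sim M.ψ K) ∧
    ∀ (l : ℕ) [Fact l.Prime], M.AIrrL l → (MT.WideC w h ∨ M.IsoEigM l) →
      ∀ (K : Type) [Field K] [Algebra ℚ_[l] K],
      (∀ H : Subgroup (MU.Gal F), IsOpen (H : Set (MU.Gal F)) →
        MT.SimC w M.ψ K ⊆ MT.ZC (M.ρ l '' H) K) ∧
      M.Gl0 l K = MT.SimC w M.ψ K ∧ M.Gl0 l K ⊆ M.Gl l K ∧ M.Gl l K ⊆ M.Gmot K ∧
      M.Gmot K ⊆ MT.Sim M.ψ K ∧ (Odd w ∨ Odd n → MT.SimC w M.ψ K = MT.Sim M.ψ K) ∧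
      M.Gsigma K ⊆ M.Gl0 l K ∧ (M.AIrrH → MT.WideH w h → M.Gl0 l K = M.Gsigma K) ∧
      ((∀ (a b : ℕ) (t : MT.Tensor n a b ℚ), M.IsHodge t → ∃ H : Subgroup (MU.Gal F),
        IsOpen (H : Set (MU.Gal F)) ∧
          ∀ g ∈ H, MT.act (M.ρ l g) (t.base ℚ_[l]) = t.base ℚ_[l]) → M.Gl0 l K = M.Gsigma K) :=
  MR.mainN_final F n w h M hw

end Pool.Agent.Results.MP_de8692_ag.IsolatedHodgeNumbers
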