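import Pool.Agent.Helper21.MT8.Final8

/-!
# MP_de8692_ag: the motivic Tate statement for motives with pseudo-reflections

`M` is a polarised pure motive of weight `w > 0` and rank `n ≥ 3` over a number field `F`
(`MT.QMot`), some Galois element acts as a pseudo-reflection, and the Jordan types of the
monodromy at several primes leave no room for stable subspaces (`MT.PMot.Amp8`).
-/

open NumberField

namespace Pool.Agent.Results.MP_de8692_ag.JordanTypes

/-- For every field `K` containing `ℚ_l`, on points over `K`: the `l`-adic monodromy group and the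
motivic Galois group are equal to the group of similitudes of the polarisation, the identity
component of the `l`-adic monodromy group is the connected group of similitudes; it contains
the Mumford-Tate group, and is equal to it if every Hodge class is invariant under an open subgroup
of the Galois group (which holds for absolute Hodge classes). -/
theorem result (F : Type) [Field F] [NumberField F] (S : Finset ℕ) (hS : ∀ p ∈ S, p.Prime)
    (n w : ℕ) (hw : 0 < w) (hn : 3 ≤ n) (h : Fin n → ℕ) (M : MT.QMot F S n w h) (l : ℕ)
    [Fact l.Prime] (hM : M.Amp8 l) (hg : ∃ g : MU.Gal F, (MT.mat (M.ρ l) g - 1).rank = 1)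
    (K : Type) [Field K] [Algebra ℚ_[l] K] :
    M.Gl l K = M.Gmot K ∧ M.Gmot K = MT.Sim M.ψ K ∧ M.Gl0 l K = MT.SimC w M.ψ K ∧
      M.Gsigma K ⊆ M.Gl0 l K ∧
      ((∀ (a b : ℕ) (t : MT.Tensor n a b ℚ), M.IsHodge t → ∃ H : Subgroup (MU.Gal F),
        IsOpen (H : Set (MU.Gal F)) ∧
          ∀ g ∈ H, MT.act (M.ρ l g) (t.base ℚ_[l]) = t.base ℚ_[l]) →
        M.Gl0 l K = M.Gsigma K) :=
  ((MT.main8_final F S hS n w h M l).2 hM hw hn hg K).2

end Pool.Agent.Results.MP_de8692_ag.JordanTypes
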